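import Pool.Agent.P.MP_94de62_al.EqMain

/-!
The three growth ordinals of an equationally Noetherian non-elementary hyperbolic group coincide:
they are all `ω ^ ρ`, where `ρ` is the Cantor-Bendixson rank of the spaces of limit groups.
-/

namespace Pool.Agent.Results.MP_94de62_al.GrowthOrdinal

open Pool.Agent.P.MP_94de62_al

theorem result (Γ : Type*) [Group Γ] (hyp : IsHyperbolicGroup Γ) (hne : ¬ VirtuallyCyclic Γ)
    (hen : EquationallyNoetherian Γ) :
    HasOrderType (xiSet Γ) (Ordinal.omega0 ^ limitRank Γ) ∧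
      HasOrderType (thetaSet Γ) (Ordinal.omega0 ^ limitRank Γ) ∧
      HasOrderType (deltaSet Γ) (Ordinal.omega0 ^ limitRank Γ) :=
  orderTypes_en hyp hne hen

end Pool.Agent.Results.MP_94de62_al.GrowthOrdinal
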