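import Pool.Agent.P.MP_94de62_al.Main

/-!
The growth ordinals of every non-elementary hyperbolic group that has a finite dimensional linear
representation with finite kernel are all equal to `ω ^ ω`.
-/

namespace Pool.Agent.Results.MP_94de62_al.LinearCase

open Pool.Agent.P.MP_94de62_al

theorem result (Γ : Type*) [Group Γ] (hyp : IsHyperbolicGroup Γ) (hne : ¬ VirtuallyCyclic Γ)
    (K : Type*) [Field K] (n : ℕ) (ρ : Γ →* GL (Fin n) K) (hker : Finite ρ.ker) :
    HasOrderType (xiSet Γ) (Ordinal.omega0 ^ Ordinal.omega0) ∧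
      HasOrderType (thetaSet Γ) (Ordinal.omega0 ^ Ordinal.omega0) ∧
      HasOrderType (deltaSet Γ) (Ordinal.omega0 ^ Ordinal.omega0) :=
  orderTypes hyp hne ρ hker

end Pool.Agent.Results.MP_94de62_al.LinearCase
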